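import Pool.Agent.N609.CNF.Fin
import Pool.Agent.N972.P17.Defs

/-!
# CNF of project P17: the class number formula for the two lattices of level 17
-/

set_option autoImplicit false

namespace Pool.Agent.N609.P17

open Finset
open Pool.Agent.N969.P15 (V3 ep2)
open Pool.Agent.N972.P17
open Pool.Agent.N609.CNF (Gc locq final cp_zero total)

/-- the first lattice -/
def g1 : Gc := ⟨7, 11, 20, 3, 2, 4⟩

/-- the second lattice -/
def g2 : Gc := ⟨3, 23, 23, 1, 1, 11⟩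

lemma dom1 : g1.Dom := by unfold Gc.Dom g1; norm_num

lemma dom2 : g2.Dom := by unfold Gc.Dom g2; norm_num

lemma ip1_eq (v w : V3) : ip1 v w = Pool.Agent.N609.CNF.ip g1 v w := by
  simp only [ip1, Pool.Agent.N609.CNF.ip, g1]

lemma ip2_eq (v w : V3) : ip2 v w = Pool.Agent.N609.CNF.ip g2 v w := by
  simp only [ip2, Pool.Agent.N609.CNF.ip, g2]; ring

lemma vec1_eq (n : ℤ) : vec1 n = Pool.Agent.N609.CNF.vec g1 n := by
  ext v
  simp only [vec1, Pool.Agent.N609.CNF.vec, mem_filter, ip1_eq]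

lemma vec2_eq (n : ℤ) : vec2 n = Pool.Agent.N609.CNF.vec g2 n := by
  ext v
  simp only [vec2, Pool.Agent.N609.CNF.vec, mem_filter, ip2_eq]

lemma cp1_eq (n b m : ℤ) : cp1 n b m = Pool.Agent.N609.CNF.cp g1 n b m := by
  simp only [cp1, Pool.Agent.N609.CNF.cp, vec1_eq, ip1_eq]

lemma cp2_eq (n b m : ℤ) : cp2 n b m = Pool.Agent.N609.CNF.cp g2 n b m := by
  simp only [cp2, Pool.Agent.N609.CNF.cp, vec2_eq, ip2_eq]

/-- the orthogonal pairs of both lattices together -/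
lemma both (n : ℕ) (hn : 0 < n) : ∃ κ K' : ℝ, ∀ t : ℝ, 0 < t → t ≤ 1 →
    ∃ s : ℝ, HasSum (fun k : ℕ => ((3 * cp1 n 0 k + cp2 n 0 k : ℤ) : ℝ) * Real.exp (-(t * k))) s ∧
      |s - κ / t| ≤ K' * t := by
  obtain ⟨κ1, K1, h1⟩ := total dom1 n hn
  obtain ⟨κ2, K2, h2⟩ := total dom2 n hn
  refine ⟨3 * κ1 + κ2, 3 * K1 + K2, fun t ht ht1 => ?_⟩
  obtain ⟨s1, hs1, hb1⟩ := h1 t ht ht1
  obtain ⟨s2, hs2, hb2⟩ := h2 t ht ht1
  refine ⟨3 * s1 + s2, ?_, ?_⟩
  · refine ((hs1.mul_left 3).add hs2).congr_fun fun k => ?_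
    rw [cp1_eq, cp2_eq]
    push_cast
    ring
  · have e : 3 * s1 + s2 - (3 * κ1 + κ2) / t = 3 * (s1 - κ1 / t) + (s2 - κ2 / t) := by ring
    rw [e]
    refine (abs_add_le _ _).trans ?_
    rw [abs_mul, abs_of_pos (by norm_num : (0 : ℝ) < 3)]
    linarith

/-- **CNF**: the class number formula -/
theorem t_CNF (hPC : S_PC) : S_CNF := by
  rintro n ⟨hn, h4, h17⟩
  have hn0 : 0 < n := by omega
  have hrec : jacobiSym ((17 : ℕ) : ℤ) n = -1 := by
    rw [← h17]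
    exact jacobiSym.quadratic_reciprocity_one_mod_four (a := 17) (b := n) (by norm_num)
      (Nat.odd_iff.2 (by omega))
  have h17' : ¬ 17 ∣ n := Pool.Agent.N609.CNF.not_dvd_of_jac (by norm_num) (by omega) hrec
  have key := final (q := 17) (n := n) 6 (by norm_num) (by norm_num) hn h4 hrec
    (fun k : ℕ => ((3 * cp1 n 0 k + cp2 n 0 k : ℤ) : ℝ)) (rr n) ?_ ?_ (both n hn0)
  · unfold ep2
    exact_mod_cast key
  · have c1 := cp_zero dom1 n
    have c2 := cp_zero dom2 n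
    simp only [Nat.cast_zero, cp1_eq, cp2_eq, c1, c2, rr, vec1_eq, vec2_eq]
  · intro k hk
    have h := hPC n k 0 (n * k) hn h4 h17' (Nat.mul_pos hn0 (Nat.pos_of_ne_zero hk))
      (by push_cast; ring)
    simp only [h]
    push_cast
    rfl

end Pool.Agent.N609.P17
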