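import Pool.Agent.N609.CNF.Fin2
import Pool.Agent.N609.P17.Cnf
import Pool.Agent.N972.P17.Defs3

/-!
# CNFE, CNFR, CNFRE of project P17: the class number formula for the even and the ramified
# discriminants, level 17
-/

set_option autoImplicit false

namespace Pool.Agent.N609.P17

open Finset
open Pool.Agent.N969.P15 (V3 ep2 Ev chE)
open Pool.Agent.N972.P17
open Pool.Agent.N609.CNF (Gc cp_zero total totalE cpE finalR finalE finalRE ev_ne)
open scoped Classical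

/-- the vectors of the first lattice with norm divisible by `4` -/
def E1 : Submodule ℤ V3 where
  carrier := {w | (2 : ℤ) ∣ w 0 + w 1}
  add_mem' := by
    intro a b ha hb
    have := dvd_add ha hb
    simp only [Set.mem_ofPred_eq, Pi.add_apply]
    rwa [show a 0 + b 0 + (a 1 + b 1) = a 0 + a 1 + (b 0 + b 1) by ring]
  zero_mem' := by simp
  smul_mem' := by
    intro c a ha
    simp only [Set.mem_ofPred_eq, Pi.smul_apply, smul_eq_mul] at ha ⊢
    rw [← mul_add]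
    exact ha.mul_left c

/-- the vectors of the second lattice with norm divisible by `4` -/
def E2 : Submodule ℤ V3 where
  carrier := {w | (2 : ℤ) ∣ w 0 + w 1 + w 2}
  add_mem' := by
    intro a b ha hb
    have := dvd_add ha hb
    simp only [Set.mem_ofPred_eq, Pi.add_apply]
    rwa [show a 0 + b 0 + (a 1 + b 1) + (a 2 + b 2) = a 0 + a 1 + a 2 + (b 0 + b 1 + b 2) by ring]
  zero_mem' := by simp
  smul_mem' := by
    intro c a ha
    simp only [Set.mem_ofPred_eq, Pi.smul_apply, smul_eq_mul] at ha ⊢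
    rw [← mul_add, ← mul_add]
    exact ha.mul_left c

lemma mem_E1 (w : V3) : w ∈ E1 ↔ (2 : ℤ) ∣ w 0 + w 1 := Iff.rfl

lemma mem_E2 (w : V3) : w ∈ E2 ↔ (2 : ℤ) ∣ w 0 + w 1 + w 2 := Iff.rfl

lemma two_E1 (w : V3) : (2 : ℤ) • w ∈ E1 := by
  rw [mem_E1]
  simp only [Pi.smul_apply, smul_eq_mul]
  exact ⟨w 0 + w 1, by ring⟩

lemma two_E2 (w : V3) : (2 : ℤ) • w ∈ E2 := by
  rw [mem_E2]
  simp only [Pi.smul_apply, smul_eq_mul]
  exact ⟨w 0 + w 1 + w 2, by ring⟩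

lemma four_sq {k x z : ℤ} (h : k = 4 * z - x ^ 2) : (4 : ℤ) ∣ k ↔ (2 : ℤ) ∣ x := by
  constructor
  · intro h4
    have h2 : (2 : ℤ) ∣ x ^ 2 := by
      obtain ⟨y, hy⟩ := h4
      exact ⟨2 * z - 2 * y, by rw [hy] at h; linarith⟩
    exact Int.prime_two.dvd_of_dvd_pow h2
  · rintro ⟨y, rfl⟩
    exact ⟨z - y ^ 2, by rw [h]; ring⟩

lemma four_E1 {w : V3} {k : ℤ} (h : Pool.Agent.N609.CNF.ip g1 w w = k) : w ∈ E1 ↔ (4 : ℤ) ∣ k := by
  rw [mem_E1, four_sq (k := k) (x := w 0 + w 1)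
    (z := 2 * w 0 ^ 2 + 3 * w 1 ^ 2 + 5 * w 2 ^ 2 - w 0 * w 1 - w 0 * w 2 - 2 * (w 1 * w 2))]
  rw [← h]
  simp only [Pool.Agent.N609.CNF.ip, g1]
  ring

lemma four_E2 {w : V3} {k : ℤ} (h : Pool.Agent.N609.CNF.ip g2 w w = k) : w ∈ E2 ↔ (4 : ℤ) ∣ k := by
  rw [mem_E2, four_sq (k := k) (x := w 0 + w 1 + w 2)
    (z := w 0 ^ 2 + 6 * w 1 ^ 2 + 6 * w 2 ^ 2 - 5 * (w 1 * w 2))]
  rw [← h]
  simp only [Pool.Agent.N609.CNF.ip, g2]
  ring

lemma cpE_ite {g : Gc} {E : Submodule ℤ V3}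
    (hE : ∀ (w : V3) (k : ℤ), Pool.Agent.N609.CNF.ip g w w = k → (w ∈ E ↔ (4 : ℤ) ∣ k))
    (n k : ℕ) : cpE g E n k = if 4 ∣ k then Pool.Agent.N609.CNF.cp g n 0 k else 0 := by
  unfold cpE Pool.Agent.N609.CNF.cp
  split_ifs with h
  · congr 1
    apply filter_congr
    rintro ⟨v, w⟩ hq
    rw [mem_product] at hq
    have hw : Pool.Agent.N609.CNF.ip g w w = k := (mem_filter.1 hq.2).2
    have : w ∈ E := (hE w k hw).2 (by exact_mod_cast h)
    exact ⟨fun h => h.1, fun h => ⟨h, this⟩⟩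
  · rw [card_eq_zero, filter_eq_empty_iff]
    rintro ⟨v, w⟩ hq ⟨_, h2⟩
    rw [mem_product] at hq
    have hw : Pool.Agent.N609.CNF.ip g w w = k := (mem_filter.1 hq.2).2
    exact h (by exact_mod_cast (hE w k hw).1 h2)

/-- the orthogonal pairs of both lattices together, even norms -/
lemma bothE (n : ℕ) (hn : 0 < n) : ∃ κ K' : ℝ, ∀ t : ℝ, 0 < t → t ≤ 1 →
    ∃ s : ℝ, HasSum (fun k : ℕ =>
      ((if 4 ∣ k then 3 * cp1 n 0 k + cp2 n 0 k else 0 : ℤ) : ℝ) * Real.exp (-(t * k))) s ∧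
      |s - κ / t| ≤ K' * t := by
  obtain ⟨κ1, K1, h1⟩ := totalE dom1 two_E1 n hn
  obtain ⟨κ2, K2, h2⟩ := totalE dom2 two_E2 n hn
  refine ⟨3 * κ1 + κ2, 3 * K1 + K2, fun t ht ht1 => ?_⟩
  obtain ⟨s1, hs1, hb1⟩ := h1 t ht ht1
  obtain ⟨s2, hs2, hb2⟩ := h2 t ht ht1
  refine ⟨3 * s1 + s2, ?_, ?_⟩
  · refine ((hs1.mul_left 3).add hs2).congr_fun fun k => ?_
    rw [cpE_ite (fun w k h => four_E1 h), cpE_ite (fun w k h => four_E2 h), cp1_eq, cp2_eq]
    split_ifs <;> push_cast <;> ring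
  · have e : 3 * s1 + s2 - (3 * κ1 + κ2) / t = 3 * (s1 - κ1 / t) + (s2 - κ2 / t) := by ring
    rw [e]
    refine (abs_add_le _ _).trans ?_
    rw [abs_mul, abs_of_pos (by norm_num : (0 : ℝ) < 3)]
    linarith

lemma c_zero (n : ℕ) : 3 * (cp1 n 0 (0 : ℕ) : ℤ) + cp2 n 0 (0 : ℕ) = rr n := by
  have c1 := cp_zero dom1 n
  have c2 := cp_zero dom2 n
  simp only [Nat.cast_zero, cp1_eq, cp2_eq, c1, c2, rr, vec1_eq, vec2_eq]

/-- **CNFR** -/
theorem t_CNFR (hPC : S_PCR) : S_CNFR := by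
  rintro n ⟨hn, h4, h17⟩
  have hn0 : 0 < n := by omega
  have key := finalR (q := 17) (n := n) 6 (by norm_num) hn h4 h17
    (fun k : ℕ => ((3 * cp1 n 0 k + cp2 n 0 k : ℤ) : ℝ)) (rr n) ?_ ?_ (both n hn0)
  · unfold ep2
    exact_mod_cast key
  · simp only [c_zero]
  · intro k hk
    have h := hPC n k 0 (n * k) ⟨hn, h4, h17⟩ (Nat.mul_pos hn0 (Nat.pos_of_ne_zero hk))
      (by push_cast; ring)
    simp only [h]
    push_cast
    rfl

/-- **CNFE** -/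
theorem t_CNFE (hPC : S_PCE) : S_CNFE := by
  rintro n ⟨hn, h17⟩
  have hn0 : 0 < n := Nat.pos_of_ne_zero (ev_ne hn)
  have hqn : ¬ 17 ∣ n := by
    intro hd
    have h1 : jacobiSym (n : ℤ) 17 = 0 := by
      rw [jacobiSym.eq_zero_iff_not_coprime, Int.gcd_natCast_natCast, Nat.gcd_eq_right hd]
      norm_num
    rw [h1] at h17
    norm_num at h17
  have h5 : jacobiSym (-(n : ℤ)) 17 = -1 := by
    rw [neg_eq_neg_one_mul, jacobiSym.mul_left, h17]
    decide +kernel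
  have key := finalE (q := 17) (n := n) 6 (by norm_num) (by norm_num) hn h5 hqn
    (fun k : ℕ => ((if 4 ∣ k then 3 * cp1 n 0 k + cp2 n 0 k else 0 : ℤ) : ℝ)) (rr n) ?_ ?_ ?_
    (bothE n hn0)
  · exact_mod_cast key
  · simp only [dvd_zero, if_true, c_zero]
  · intro k hk h4
    have h := hPC n k 0 (n * k) hn h17 h4 (Nat.mul_pos hn0 (Nat.pos_of_ne_zero hk))
      (by push_cast; ring)
    simp only [h4, if_true, h]
    push_cast
    rfl
  · intro k h4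
    simp only [h4, if_false, Int.cast_zero]

/-- **CNFRE** -/
theorem t_CNFRE (hPC : S_PCRE) : S_CNFRE := by
  rintro n ⟨hn, h17⟩
  have hn0 : 0 < n := Nat.pos_of_ne_zero (ev_ne hn)
  have key := finalRE (q := 17) (n := n) 6 (by norm_num) (by norm_num) hn h17
    (fun k : ℕ => ((if 4 ∣ k then 3 * cp1 n 0 k + cp2 n 0 k else 0 : ℤ) : ℝ)) (rr n) ?_ ?_ ?_
    (bothE n hn0)
  · exact_mod_cast key
  · simp only [dvd_zero, if_true, c_zero]
  · intro k hk h4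
    have h := hPC n k 0 (n * k) ⟨hn, h17⟩ h4 (Nat.mul_pos hn0 (Nat.pos_of_ne_zero hk))
      (by push_cast; ring)
    simp only [h4, if_true, h]
    push_cast
    rfl
  · intro k h4
    simp only [h4, if_false, Int.cast_zero]

end Pool.Agent.N609.P17
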